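import Pool.Agent.helper83.GR.Spec

/-!
# gr:ORB, orbit counting
-/

set_option autoImplicit false

namespace Pool.Agent.GR

open Pool.Agent.helper58.DC Pool.Agent.DI

open Classical in
theorem ORB_card {p : ℕ} (hp : p.Prime) {X : Type} [Fintype X] (R : Equiv.Perm X) (K r : ℕ)
    (hR : R ^ (p ^ K) = 1) (i : X) (hi : (R ^ (p ^ r)) i ≠ i) :
    ∃ j, (Finset.univ.filter (fun y => Equiv.Perm.SameCycle R i y)).card = p ^ (r + 1 + j) := by
  have hRi : R i ≠ i := by
    intro h
    apply hi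
    exact Function.IsFixedPt.perm_pow h _
  have hc : (R.cycleOf i).IsCycle := Equiv.Perm.isCycle_cycleOf R hRi
  have hmove : (R.cycleOf i) i ≠ i := by
    rw [Equiv.Perm.cycleOf_apply_self]
    exact hRi
  have hsupp : Finset.univ.filter (fun y => Equiv.Perm.SameCycle R i y) = (R.cycleOf i).support := by
    ext y
    rw [Finset.mem_filter, Equiv.Perm.mem_support_cycleOf_iff]
    simp [Equiv.Perm.mem_support, hRi]
  have h1 : (R.cycleOf i) ^ (p ^ K) = 1 := by
    rw [hc.pow_eq_one_iff' hmove, Equiv.Perm.cycleOf_pow_apply_self, hR]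
    rfl
  obtain ⟨j, _, hj⟩ := (Nat.dvd_prime_pow hp).1 (orderOf_dvd_of_pow_eq_one h1)
  have hjr : r + 1 ≤ j := by
    by_contra hlt
    have hle : j ≤ r := by omega
    apply hi
    have h2 : (R.cycleOf i) ^ (p ^ r) = 1 := by
      apply orderOf_dvd_iff_pow_eq_one.1
      rw [hj]
      exact pow_dvd_pow p hle
    rw [hc.pow_eq_one_iff' hmove, Equiv.Perm.cycleOf_pow_apply_self] at h2
    exact h2
  refine ⟨j - (r + 1), ?_⟩
  rw [hsupp, ← hc.orderOf, hj]
  congr 1
  omega

open Classical in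
theorem ORB : ORB_stmt := by
  intro p M h X _ R K r hR w hw hinv
  have hp := h.pr
  have hwpow : ∀ (n : ℕ) x, w ((R ^ n) x) = w x := by
    intro n x
    induction n with
    | zero => simp
    | succ n ih => rw [pow_succ', Equiv.Perm.mul_apply, hinv, ih]
  have hwsame : ∀ x y, Equiv.Perm.SameCycle R x y → w y = w x := by
    intro x y hxy
    obtain ⟨n, _, rfl⟩ := hxy.exists_pow_eq'
    exact hwpow n x
  set S : Finset X := Finset.univ.filter (fun x => ¬ (R ^ (p ^ r)) x = x) with hS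
  have e1 : ∑ x, w x - ∑ x ∈ Finset.univ.filter (fun x => (R ^ (p ^ r)) x = x), w x =
      ∑ x ∈ S, w x := by
    rw [← Finset.sum_filter_add_sum_filter_not Finset.univ (fun x => (R ^ (p ^ r)) x = x)]
    ring
  have hSsame : ∀ x y, Equiv.Perm.SameCycle R x y → x ∈ S → y ∈ S := by
    intro x y hxy hx
    obtain ⟨n, _, rfl⟩ := hxy.exists_pow_eq'
    rw [hS, Finset.mem_filter] at hx ⊢
    refine ⟨Finset.mem_univ _, fun h1 => hx.2 ?_⟩
    have h2 : (R ^ n) ((R ^ (p ^ r)) x) = (R ^ n) x := by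
      rw [← Equiv.Perm.mul_apply, ← pow_add, add_comm, pow_add, Equiv.Perm.mul_apply]
      exact h1
    exact (R ^ n).injective h2
  let c : X → Finset X := fun x => Finset.univ.filter (fun y => Equiv.Perm.SameCycle R x y)
  have hcmem : ∀ x y, y ∈ c x ↔ Equiv.Perm.SameCycle R x y := by
    intro x y
    simp [c]
  have hceq : ∀ x y, c y = c x ↔ Equiv.Perm.SameCycle R x y := by
    intro x y
    constructor
    · intro h1
      have h2 : y ∈ c y := (hcmem y y).2 (Equiv.Perm.SameCycle.refl R y)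
      rw [h1] at h2
      exact (hcmem x y).1 h2
    · intro h1
      ext z
      rw [hcmem, hcmem]
      exact ⟨fun h2 => h1.trans h2, fun h2 => h1.symm.trans h2⟩
  have e2 : ∑ A ∈ S.image c, ∑ x ∈ A, w x = ∑ x ∈ S, w x := by
    apply Finset.sum_image'
    intro i hi
    apply Finset.sum_congr _ (fun _ _ => rfl)
    ext y
    refine (hcmem i y).trans ?_
    rw [Finset.mem_filter, hceq]
    exact ⟨fun h1 => ⟨hSsame i y h1 hi, h1⟩, fun h1 => h1.2⟩
  rw [e1, ← e2]
  apply Small.sum h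
  intro A hA
  obtain ⟨i, hi, rfl⟩ := Finset.mem_image.1 hA
  have hi2 : (R ^ (p ^ r)) i ≠ i := (Finset.mem_filter.1 hi).2
  obtain ⟨j, hj⟩ := ORB_card hp R K r hR i hi2
  have e3 : ∑ x ∈ c i, w x = (p : ℂ) ^ (r + 1) * ((p : ℂ) ^ j * w i) := by
    rw [Finset.sum_congr rfl (fun x hx => hwsame i x ((hcmem i x).1 hx)), Finset.sum_const]
    have : (c i).card = p ^ (r + 1 + j) := hj
    rw [this, nsmul_eq_mul]
    push_cast
    ring
  exact ⟨_, ((IntAt.natCast h p).pow h j).mul h (hw i), e3⟩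

end Pool.Agent.GR
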